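import Pool.Agent.H19.KN.Targets

/-!
# Module PHI: the homomorphism which looks only at one ring
-/

set_option autoImplicit false

namespace Pool.Agent.H35.KN

open Pool.Agent.H62.MK Pool.Agent.H19.KN Polynomial Function

universe u

section

variable {F : Type u} [Field F] {π : F} {q E : ℕ} {ι : Type} [Fintype ι] {R : ι → Subring F}
  {n : ℕ}

/-- `g'` is close to `g` at `i` and close to `1` at the other places -/
def Ap (π : F) (n : ℕ) (R : ι → Subring F) (i : ι) (g g' : Fˣ) : Prop :=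
  g' / g ∈ Small π n (R i) ∧ ∀ j, j ≠ i → g' ∈ Small π n (R j)

omit [Fintype ι] in
theorem small_inf (hπ : π ≠ 0) (i : ι) {u : Fˣ} (h : ∀ j, u ∈ Small π n (R j)) :
    u ∈ Small π n (⨅ j, R j) := by
  obtain ⟨a, ha, hu⟩ := h i
  refine ⟨a, ?_, hu⟩
  rw [Subring.mem_iInf]
  intro j
  obtain ⟨b, hb, hu'⟩ := h j
  have e : π ^ n * a = π ^ n * b := by
    rw [hu] at hu'
    exact add_left_cancel hu'
  rw [mul_left_cancel₀ (pow_ne_zero n hπ) e]
  exact hb

omit [Fintype ι] in
theorem Ap.div (hG : T_GRP.{u}) (hR : ∀ i, Good (R i) π q E) (hn : 1 ≤ n) {i : ι} {g g' g'' : Fˣ}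
    (h' : Ap π n R i g g') (h'' : Ap π n R i g g'') : g' / g'' ∈ Small π n (⨅ j, R j) := by
  refine small_inf (hR i).pi_ne i fun j => ?_
  obtain ⟨-, hmul, hinv, -⟩ := hG F (R j) π q E (hR j).toGood0 n hn
  by_cases hj : j = i
  · subst hj
    have e : g' / g'' = (g' / g) * (g'' / g)⁻¹ := by
      rw [inv_div, div_mul_div_cancel]
    rw [e]
    exact hmul _ h'.1 _ (hinv _ h''.1)
  · rw [div_eq_mul_inv]
    exact hmul _ (h'.2 j hj) _ (hinv _ (h''.2 j hj))

omit [Fintype ι] in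
theorem Ap.mul (hG : T_GRP.{u}) (hR : ∀ i, Good (R i) π q E) (hn : 1 ≤ n) {i : ι}
    {g g' h h' : Fˣ} (h1 : Ap π n R i g g') (h2 : Ap π n R i h h') :
    Ap π n R i (g * h) (g' * h') := by
  refine ⟨?_, fun j hj => ?_⟩
  · obtain ⟨-, hmul, hinv, -⟩ := hG F (R i) π q E (hR i).toGood0 n hn
    rw [mul_div_mul_comm]
    exact hmul _ h1.1 _ h2.1
  · obtain ⟨-, hmul, hinv, -⟩ := hG F (R j) π q E (hR j).toGood0 n hn
    exact hmul _ (h1.2 j hj) _ (h2.2 j hj)

theorem exists_Ap (hW : T_APW.{u}) (hR : ∀ i, Good (R i) π q E) (hA : Approx π R) (hn : 1 ≤ n)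
    (i : ι) (g : Fˣ) : ∃ g', Ap π n R i g g' := by
  classical
  obtain ⟨g', hg'⟩ := hW F π q E ι R hR hA n hn (fun j => if j = i then g else 1)
  refine ⟨g', ?_, fun j hj => ?_⟩
  · have := hg' i
    rwa [if_pos rfl] at this
  · have := hg' j
    rwa [if_neg hj, div_one] at this

theorem tele (hU : T_UMEM.{u}) (hT : T_TELE.{u}) {S : Subring F} {m : ℕ} {a b : Fin m → Fˣ}
    (h : ∀ k, a k / b k ∈ Small π n S) : sym a - sym b ∈ USub q π n S m := by
  have h1 := hT F m a b
  refine (AddSubgroup.closure_le _).2 ?_ h1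
  rintro z ⟨c, i, rfl, hc, -⟩
  refine (hU F S π q n).2.2.2.1 m c i ?_
  rw [hc]
  exact h i

theorem sym_tail {m : ℕ} (b : Fin (m + 1) → Fˣ) : sym b = cup (b 0) (sym (Fin.tail b)) := by
  rw [cup_sym, Fin.cons_self_tail]

/-- two adjacent entries -/
theorem adj (hU : T_UMEM.{u}) {S : Subring F} : ∀ (m : ℕ) (b : Fin m → Fˣ) (i : ℕ)
    (hi : i + 1 < m), (∀ (l : ℕ) (y : MilnorK F l),
      cup (b ⟨i, by omega⟩) (cup (b ⟨i + 1, hi⟩) y) ∈ USub q π n S (l + 2)) →
    sym b ∈ USub q π n S m := by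
  intro m
  induction m with
  | zero => intro b i hi; omega
  | succ m ih =>
    intro b i hi h
    rw [sym_tail]
    cases i with
    | zero =>
      cases m with
      | zero => omega
      | succ m =>
        rw [sym_tail (Fin.tail b)]
        exact h m (sym (Fin.tail (Fin.tail b)))
    | succ i =>
      refine (hU F S π q n).1 m (b 0) _ ?_
      exact ih (Fin.tail b) i (by omega) h

/-- the Steinberg relation for approximations -/
theorem stein (hG : T_GRP.{u}) (hM : T_MIX.{u}) (hR : ∀ i, Good (R i) π q E)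
    (hA : Approx π R) (hn : 1 ≤ n) (i : ι) (g h g' : Fˣ) (hgh : (g : F) + (h : F) = 1)
    (hg' : Ap π n R i g g') : ∃ s : Fˣ, Ap π n R i h s ∧ ∀ (l : ℕ) (y : MilnorK F l),
      cup g' (cup s y) ∈ USub q π n (⨅ j, R j) (l + 2) := by
  classical
  haveI : Nonempty ι := ⟨i⟩
  obtain ⟨k₁, hk₁⟩ := (hR i).frac ((g⁻¹ : Fˣ) : F)
  obtain ⟨k₂, hk₂⟩ := (hR i).frac ((h⁻¹ : Fˣ) : F)
  obtain ⟨t, ht⟩ := hA (fun j => if j = i then (g : F) else 0) (n + (k₁ + k₂))
  obtain ⟨c, hc, hti⟩ := ht i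
  rw [if_pos rfl] at hti
  obtain ⟨-, hmul, hinv, -, hne, -⟩ := hG F (R i) π q E (hR i).toGood0 n hn
  have hπm : ∀ k : ℕ, π ^ k ∈ R i := fun k => Subring.pow_mem _ (hR i).pi_mem k
  -- the element t
  have ha₁ : π ^ k₂ * (π ^ k₁ * ((g⁻¹ : Fˣ) : F)) * c ∈ R i :=
    Subring.mul_mem _ (Subring.mul_mem _ (hπm k₂) hk₁) hc
  have et : t = g * (1 + π ^ n * (π ^ k₂ * (π ^ k₁ * ((g⁻¹ : Fˣ) : F)) * c)) := by
    have hg0 : (g : F) ≠ 0 := g.ne_zero
    rw [hti, Units.val_inv_eq_inv_val]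
    field_simp
    ring
  have ht0 : t ≠ 0 := by
    rw [et]
    exact mul_ne_zero g.ne_zero (hne _ ha₁)
  have ha₂ : -(π ^ k₁ * (π ^ k₂ * ((h⁻¹ : Fˣ) : F)) * c) ∈ R i :=
    Subring.neg_mem _ (Subring.mul_mem _ (Subring.mul_mem _ (hπm k₁) hk₂) hc)
  have es : 1 - t = h * (1 + π ^ n * -(π ^ k₁ * (π ^ k₂ * ((h⁻¹ : Fˣ) : F)) * c)) := by
    have hh0 : (h : F) ≠ 0 := h.ne_zero
    have e1 : (1 : F) - g = h := by rw [← hgh]; ring
    rw [hti, Units.val_inv_eq_inv_val]
    field_simp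
    rw [← e1]
    ring
  have hs0 : 1 - t ≠ 0 := by
    rw [es]
    exact mul_ne_zero h.ne_zero (hne _ ha₂)
  set tu : Fˣ := Units.mk0 t ht0 with htu
  set s : Fˣ := Units.mk0 (1 - t) hs0 with hsdef
  have htg : tu / g ∈ Small π n (R i) := by
    refine ⟨_, ha₁, ?_⟩
    rw [Units.val_div_eq_div_val, htu, Units.val_mk0, et]
    exact mul_div_cancel_left₀ _ g.ne_zero
  have hsh : s / h ∈ Small π n (R i) := by
    refine ⟨_, ha₂, ?_⟩
    rw [Units.val_div_eq_div_val, hsdef, Units.val_mk0, es]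
    exact mul_div_cancel_left₀ _ h.ne_zero
  have hsj : ∀ j, j ≠ i → s ∈ Small π n (R j) := by
    intro j hj
    obtain ⟨c', hc', htj⟩ := ht j
    rw [if_neg hj, zero_add] at htj
    refine ⟨-(π ^ (k₁ + k₂) * c'), Subring.neg_mem _ (Subring.mul_mem _
      (Subring.pow_mem _ (hR j).pi_mem _) hc'), ?_⟩
    rw [hsdef, Units.val_mk0, htj, pow_add]
    ring
  refine ⟨s, ⟨hsh, hsj⟩, fun l y => ?_⟩
  have hw : g' / tu ∈ Small π n (R i) := by
    have e : g' / tu = (g' / g) * (tu / g)⁻¹ := by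
      rw [inv_div, div_mul_div_cancel]
    rw [e]
    exact hmul _ hg'.1 _ (hinv _ htg)
  have h1 := hM F π q E ι R hR hA n hn (g' / tu) s (fun j => by
    by_cases hj : j = i
    · left
      rw [hj]
      exact hw
    · right
      exact hsj j hj) l y
  have h2 : cup tu (cup s y) = 0 := cup_cup_eq_zero tu s (by
    rw [htu, hsdef, Units.val_mk0, Units.val_mk0]
    ring) y
  have e : g' = (g' / tu) * tu := (div_mul_cancel g' tu).symm
  rw [e, cup_mul, h2, add_zero]
  exact h1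

end

/-- PHI: the homomorphism which looks only at the ring `R i`. -/
theorem pf_PHI (hW : T_APW.{u}) (hM : T_MIX.{u}) (hU : T_UMEM.{u}) (hG : T_GRP.{u})
    (hT : T_TELE.{u}) : T_PHI.{u} := by
  classical
  intro F _ π q E ι _ R hR hA n hn m i
  obtain ⟨app, happ⟩ : ∃ app : Fˣ → Fˣ, ∀ g, Ap π n R i g (app g) := by
    choose app h using fun g : Fˣ => exists_Ap (n := n) hW hR hA hn i g
    exact ⟨app, h⟩
  set S : Subring F := ⨅ j, R j with hS
  -- independence of the approximations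
  have hind : ∀ (g a b : Fin (m + 1) → Fˣ), (∀ k, Ap π n R i (g k) (a k)) →
      (∀ k, Ap π n R i (g k) (b k)) →
      (QuotientAddGroup.mk (sym a) : MilnorK F (m + 1) ⧸ USub q π n S (m + 1)) =
        QuotientAddGroup.mk (sym b) := by
    intro g a b ha hb
    rw [← sub_eq_zero, ← QuotientAddGroup.mk_sub, QuotientAddGroup.eq_zero_iff]
    exact tele hU hT fun k => (ha k).div hG hR hn (hb k)
  have happ' : ∀ (a : Fin (m + 1) → Fˣ) (j : Fin (m + 1)) (z z' : Fˣ), Ap π n R i z z' →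
      ∀ k, Ap π n R i (update a j z k) (update (fun k => app (a k)) j z' k) := by
    intro a j z z' hz k
    by_cases hk : k = j
    · subst hk
      rw [update_self, update_self]
      exact hz
    · rw [update_of_ne hk, update_of_ne hk]
      exact happ _
  let f : (Fin (m + 1) → Fˣ) → MilnorK F (m + 1) ⧸ USub q π n S (m + 1) :=
    fun a => QuotientAddGroup.mk (sym fun k => app (a k))
  have hf : ∀ (a a' : Fin (m + 1) → Fˣ), (∀ k, Ap π n R i (a k) (a' k)) →
      f a = QuotientAddGroup.mk (sym a') := fun a a' h => hind a _ _ (fun k => happ (a k)) h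
  have hm : ∀ (a : Fin (m + 1) → Fˣ) (j : Fin (m + 1)) (x y : Fˣ),
      f (update a j (x * y)) = f (update a j x) + f (update a j y) := by
    intro a j x y
    rw [hf _ _ (happ' a j (x * y) (app x * app y) ((happ x).mul hG hR hn (happ y))),
      hf _ _ (happ' a j x (app x) (happ x)), hf _ _ (happ' a j y (app y) (happ y)),
      sym_update_mul, QuotientAddGroup.mk_add]
  have hst : ∀ (a : Fin (m + 1) → Fˣ) (j : ℕ) (hj : j + 1 < m + 1),
      (a ⟨j, by omega⟩ : F) + (a ⟨j + 1, hj⟩ : F) = 1 → f a = 0 := by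
    intro a j hj hgh
    obtain ⟨s, hs, hmem⟩ := stein hG hM hR hA hn i (a ⟨j, by omega⟩) (a ⟨j + 1, hj⟩)
      (app (a ⟨j, by omega⟩)) hgh (happ _)
    have h1 := happ' a ⟨j + 1, hj⟩ (a ⟨j + 1, hj⟩) s hs
    rw [update_eq_self] at h1
    rw [hf a _ h1, QuotientAddGroup.eq_zero_iff]
    refine adj hU (m + 1) _ j hj fun l y => ?_
    rw [update_self, update_of_ne (by
      intro h
      have := congrArg Fin.val h
      simp only at this
      omega)]
    exact hmem l y
  refine ⟨lift f hm hst, ?_, ?_⟩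
  · intro x hx
    unfold USub at hx
    induction hx using AddSubgroup.closure_induction with
    | mem z hz =>
      rcases hz with ⟨x, rfl⟩ | ⟨u, hu, y, rfl⟩
      · rw [map_nsmul]
        obtain ⟨x', hx'⟩ := QuotientAddGroup.mk_surjective (lift f hm hst x)
        rw [← hx', ← QuotientAddGroup.mk_nsmul, QuotientAddGroup.eq_zero_iff]
        exact (hU F S π q n).2.2.1 (m + 1) x'
      · have h0 : (lift f hm hst).comp (cup u) = 0 := by
          refine hom_ext fun b => ?_
          rw [AddMonoidHom.comp_apply, cup_sym, lift_sym, AddMonoidHom.zero_apply]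
          have h1 : ∀ k, Ap π n R i ((Fin.cons u b : Fin (m + 1) → Fˣ) k)
              ((Fin.cons 1 (fun k => app (b k)) : Fin (m + 1) → Fˣ) k) := by
            intro k
            refine Fin.cases ?_ (fun k => ?_) k
            · rw [Fin.cons_zero, Fin.cons_zero]
              refine ⟨?_, fun j hj => ?_⟩
              · obtain ⟨-, -, hinv, -⟩ := hG F (R i) π q E (hR i).toGood0 n hn
                rw [one_div]
                exact hinv _ hu
              · exact (hG F (R j) π q E (hR j).toGood0 n hn).1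
            · rw [Fin.cons_succ, Fin.cons_succ]
              exact happ _
          rw [hf _ _ h1, sym_cons, cup_one, QuotientAddGroup.mk_zero]
        exact DFunLike.congr_fun h0 y
    | zero => exact map_zero _
    | add x y _ _ hx hy => rw [map_add, hx, hy, add_zero]
    | neg x _ hx => rw [map_neg, hx, neg_zero]
  · intro g g' h1 h2
    rw [lift_sym]
    exact hf g g' fun k => ⟨h1 k, fun j hj => h2 k j hj⟩

end Pool.Agent.H35.KN
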